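import Pool.Agent.H29.TRI.Chk

/-!
# CERT: the polynomial certificate of the first level
-/

namespace Pool.TRI.A

open PX Chk

namespace CertM

def lin (a b c : ℤ) : PX := [(a, 1, 0, 0), (b, 0, 1, 0), (c, 0, 0, 1)]

/-- `(x 0 + x 1 + x 2) ^ 9` -/
def S9 : PX :=
  [(1, 9, 0, 0), (9, 8, 1, 0), (9, 8, 0, 1), (36, 7, 2, 0), (72, 7, 1, 1), (36, 7, 0, 2), (84, 6, 3, 0), (252,
    6, 2, 1), (252, 6, 1, 2), (84, 6, 0, 3), (126, 5, 4, 0), (504, 5, 3, 1), (756, 5, 2, 2), (504, 5, 1, 3), (126,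
    5, 0, 4), (126, 4, 5, 0), (630, 4, 4, 1), (1260, 4, 3, 2), (1260, 4, 2, 3), (630, 4, 1, 4), (126, 4, 0, 5),
    (84, 3, 6, 0), (504, 3, 5, 1), (1260, 3, 4, 2), (1680, 3, 3, 3), (1260, 3, 2, 4), (504, 3, 1, 5), (84, 3, 0,
    6), (36, 2, 7, 0), (252, 2, 6, 1), (756, 2, 5, 2), (1260, 2, 4, 3), (1260, 2, 3, 4), (756, 2, 2, 5), (252, 2,
    1, 6), (36, 2, 0, 7), (9, 1, 8, 0), (72, 1, 7, 1), (252, 1, 6, 2), (504, 1, 5, 3), (630, 1, 4, 4), (504, 1, 3,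
    5), (252, 1, 2, 6), (72, 1, 1, 7), (9, 1, 0, 8), (1, 0, 9, 0), (9, 0, 8, 1), (36, 0, 7, 2), (84, 0, 6, 3),
    (126, 0, 5, 4), (126, 0, 4, 5), (84, 0, 3, 6), (36, 0, 2, 7), (9, 0, 1, 8), (1, 0, 0, 9)]

theorem evx_S9 (x : Fin 3 → ℝ) : evx S9 x = (x 0 + x 1 + x 2) ^ 9 := by
  simp only [S9, evx, mon, List.map_cons, List.map_nil, List.sum_cons, List.sum_nil]
  push_cast
  ring

theorem evx_lin (a b c : ℤ) (x : Fin 3 → ℝ) : evx (lin a b c) x = a * x 0 + b * x 1 + c * x 2 := by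
  simp only [lin, evx, mon, List.map_cons, List.map_nil, List.sum_cons, List.sum_nil]
  ring

/-- `36 * NN` -/
def N36 : ℤ := 36 * (2 * 4157 * 10 ^ 8)

/-- second derivatives -/
def d2 (k : Fin 3) (l : PX) : PX := dd k (dd k l)

def pa (sg : ℤ) (k : Fin 3) : PX := d2 k lF1 ++ scale sg (d2 k lFB)
def pc (sg : ℤ) (k : Fin 3) : PX := d2 k lF2 ++ scale sg (d2 k lFB)

def R1 (sg : ℤ) : PX := mul (lin (2 * N36) (-N36) (-N36)) S9 ++ scale (-1) (pa sg 0 ++ (pa sg 1 ++ pa sg 2))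
def R2 (sg : ℤ) : PX := mul (lin N36 N36 (-2 * N36)) S9 ++ scale (-1) (pc sg 0 ++ (pc sg 1 ++ pc sg 2))
def R11 (sg : ℤ) : PX := scale (-2) (pa sg 0) ++ (pa sg 1 ++ pa sg 2)
def R22 (sg : ℤ) : PX := scale (-1) (pc sg 0 ++ pc sg 1) ++ scale 2 (pc sg 2)
def R12 (sg : ℤ) : PX :=
  scale (-1) (pa sg 0 ++ pa sg 1) ++ (scale 2 (pa sg 2) ++ (scale (-2) (pc sg 0) ++ (pc sg 1 ++ pc sg 2)))

def P0 (sg : ℤ) : PX := scale sg (R1 sg)
def P1 (sg : ℤ) : PX := scale sg (R2 sg)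
def P2 (sg : ℤ) : PX := scale (sg * 100000) (R1 sg) ++ scale (sg * 201) (R11 sg)
def P3 (sg : ℤ) : PX := scale (sg * 100000) (R2 sg) ++ scale (sg * 201) (R22 sg)
def P4 (sg : ℤ) : PX := scale (sg * 100000) (R1 sg ++ R2 sg) ++ scale (sg * 201) (R12 sg)

def tp0 : Tr :=
  .S (.W (.S (.V (.W (.S (.V (.W (.S .L (.S (.V (.W (.S .L .L))) .L)))) (.V (.W (.S .L (.S (.V (.W (.S .L .L)))
    .L))))))) (.W (.S (.S (.V (.W (.S .L .L))) .L) .L)))) (.W (.S (.V (.W (.S (.V (.W (.S .L (.S (.V (.W (.S .L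
    .L))) .L)))) (.V (.W (.S .L (.S (.V (.W (.S .L .L))) .L))))))) (.W (.S (.S (.V (.W (.S .L .L))) .L) .L))))

theorem cp0 : chkP 10 tp0 (P0 1) = true := by decide +kernel

def tp1 : Tr :=
  .V (.W (.S (.W (.S (.V (.W (.S (.V (.W (.S .L (.V (.W (.S .L (.S .L .L))))))) (.V (.W (.S .L (.S (.V (.W (.S
    .L .L))) .L))))))) (.W (.S .L .L)))) (.W (.S (.V (.W (.S (.V (.W (.S .L (.V (.W (.S .L (.S .L .L))))))) (.V
    (.W (.S .L (.S (.V (.W (.S .L .L))) .L))))))) (.W (.S .L .L))))))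

theorem cp1 : chkP 10 tp1 (P1 1) = true := by decide +kernel

def tp2 : Tr :=
  .W (.S (.W (.S (.V (.W (.S (.V (.W (.S .L (.S (.S (.S (.S (.V (.W (.S .L (.S .L .L)))) .L) .L) .L) .L)))) (.V
    (.W (.S .L (.S (.V (.W (.S .L .L))) .L))))))) (.W (.S (.S (.S (.S (.S (.V (.W (.S .L (.S .L .L)))) .L) .L) .L)
    .L) .L)))) (.W (.S (.V (.W (.S (.V (.W (.S (.V (.W (.S .L .L))) (.V (.W (.S .L (.V (.W (.S .L .L))))))))) (.V
    (.W (.S (.V (.W (.S .L .L))) (.V (.W (.S .L (.V (.W (.S .L .L)))))))))))) (.W (.S (.S (.V (.W (.S .L .L))) .L)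
    .L)))))

theorem cp2 : chkP 10 tp2 (P2 1) = true := by decide +kernel

def tp3 : Tr :=
  .S (.W (.S (.V (.W (.S (.V (.W (.S (.V (.W (.S .L .L))) (.V (.W (.S .L .L)))))) (.V (.W (.S (.V (.W (.S .L
    .L))) (.V (.W (.S .L .L))))))))) (.W (.S (.V (.W (.S .L (.S .L .L)))) .L)))) (.W (.S (.V (.W (.S (.V (.W (.S
    .L (.V (.W (.S .L (.V (.W (.S .L (.S .L .L)))))))))) (.V (.W (.S .L (.V (.W (.S .L (.S .L .L)))))))))) (.W (.S
    (.V (.W (.S .L (.V (.W (.S .L (.S .L .L))))))) .L))))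

theorem cp3 : chkP 10 tp3 (P3 1) = true := by decide +kernel

def tp4 : Tr :=
  .V (.W (.S (.W (.S (.V (.W (.S (.V (.W (.S .L (.V (.W (.S .L (.S (.S .L .L) .L))))))) (.V (.W (.S .L (.S (.V
    (.W (.S .L (.V (.W (.S .L .L)))))) .L))))))) (.W (.S (.V (.W (.S .L .L))) .L)))) (.W (.S (.V (.W (.S (.V (.W
    (.S .L (.S .L .L)))) (.V (.W (.S .L (.S (.V (.W (.S .L (.V (.W (.S .L .L)))))) .L))))))) (.W (.S (.S (.V (.W
    (.S .L .L))) .L) .L))))))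

set_option maxRecDepth 20000 in
theorem cp4 : chkP 10 tp4 (P4 1) = true := by decide +kernel

def tm0 : Tr :=
  .S (.W (.S (.V (.W (.S (.V (.W (.S .L (.V (.W (.S .L (.S .L .L))))))) (.V (.W (.S .L (.S (.V (.W (.S .L .L)))
    .L))))))) (.W (.S .L .L)))) (.W (.S (.V (.W (.S (.V (.W (.S .L (.V (.W (.S .L (.S .L .L))))))) (.V (.W (.S .L
    (.S (.V (.W (.S .L .L))) .L))))))) (.W (.S .L .L))))

theorem cm0 : chkP 10 tm0 (P0 (-1)) = true := by decide +kernel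

def tm1 : Tr :=
  .V (.W (.S (.W (.S (.V (.W (.S (.V (.W (.S .L (.S (.V (.W (.S .L .L))) .L)))) (.V (.W (.S .L (.S (.V (.W (.S
    .L .L))) .L))))))) (.W (.S (.S (.V (.W (.S .L .L))) .L) .L)))) (.W (.S (.V (.W (.S (.V (.W (.S .L (.S (.V (.W
    (.S .L .L))) .L)))) (.V (.W (.S .L (.S (.V (.W (.S .L .L))) .L))))))) (.W (.S (.S (.V (.W (.S .L .L))) .L)
    .L))))))

theorem cm1 : chkP 10 tm1 (P1 (-1)) = true := by decide +kernel

def tm2 : Tr :=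
  .S (.W (.S (.V (.W (.S (.V (.W (.S .L (.V (.W (.S .L (.S .L .L))))))) (.V (.W (.S .L (.S (.V (.W (.S .L .L)))
    .L))))))) (.W (.S .L .L)))) (.W (.S (.V (.W (.S (.V (.W (.S .L (.V (.W (.S .L (.S .L .L))))))) (.V (.W (.S .L
    (.S (.V (.W (.S .L .L))) .L))))))) (.W (.S .L .L))))

theorem cm2 : chkP 10 tm2 (P2 (-1)) = true := by decide +kernel

def tm3 : Tr :=
  .V (.W (.S (.W (.S (.V (.W (.S (.S (.V (.W (.S .L (.S .L .L)))) .L) (.V (.W (.S .L (.S (.V (.W (.S .L .L)))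
    .L))))))) (.W (.S (.S .L .L) .L)))) (.W (.S (.V (.W (.S (.S (.V (.W (.S .L (.S .L .L)))) .L) (.V (.W (.S .L
    (.S (.V (.W (.S .L .L))) .L))))))) (.W (.S (.S .L .L) .L))))))

theorem cm3 : chkP 10 tm3 (P3 (-1)) = true := by decide +kernel

def tm4 : Tr :=
  .V (.W (.S (.W (.S (.V (.W (.S (.V (.W (.S .L (.V (.W (.S .L (.V (.W (.S .L .L))))))))) (.S (.V (.W (.S .L
    .L))) (.S .L .L))))) (.W (.S (.S .L .L) .L)))) (.W (.S (.V (.W (.S (.V (.W (.S .L (.S (.V (.W (.S .L .L)))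
    .L)))) (.V (.W (.S .L .L)))))) (.W (.S (.S (.S .L .L) .L) .L))))))

set_option maxRecDepth 20000 in
theorem cm4 : chkP 10 tm4 (P4 (-1)) = true := by decide +kernel


theorem key (sg : ℤ) (hsg : sg = 1 ∨ sg = -1) (x : Fin 3 → ℝ) (hx : x 0 + x 1 + x 2 = 1) (b1 b2 : ℝ) (h1 : 0 ≤ b1)
    (h2 : 0 ≤ b2) (h3 : b1 + b2 ≤ 201 / 100000) (p0 : 0 ≤ evx (P0 sg) x) (p1 : 0 ≤ evx (P1 sg) x)
    (p2 : 0 ≤ evx (P2 sg) x) (p3 : 0 ≤ evx (P3 sg) x) (p4 : 0 ≤ evx (P4 sg) x) :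
    0 ≤ (sg : ℝ) * (36 * NN * ∑ k, dl b1 b2 k * x k - ∑ k, (1 + dl b1 b2 k) * QQ sg b1 b2 k x) := by
  have e36 : ((N36 : ℤ) : ℝ) = 36 * NN := by
    unfold N36 NN; push_cast; ring
  simp only [P0, P1, P2, P3, P4, R1, R2, R11, R22, R12, pa, pc, evx_append, evx_scale, evx_mul, evx_lin, evx_S9, hx]
    at p0 p1 p2 p3 p4
  simp only [Fin.sum_univ_three, dl, QQ, Matrix.cons_val_zero, Matrix.cons_val_one, Matrix.cons_val]
  simp only [d2] at p0 p1 p2 p3 p4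
  generalize evx (dd 0 (dd 0 lF1)) x = A0 at *
  generalize evx (dd 1 (dd 1 lF1)) x = A1 at *
  generalize evx (dd 2 (dd 2 lF1)) x = A2 at *
  generalize evx (dd 0 (dd 0 lF2)) x = C0 at *
  generalize evx (dd 1 (dd 1 lF2)) x = C1 at *
  generalize evx (dd 2 (dd 2 lF2)) x = C2 at *
  generalize evx (dd 0 (dd 0 lFB)) x = B0 at *
  generalize evx (dd 1 (dd 1 lFB)) x = B1 at *
  generalize evx (dd 2 (dd 2 lFB)) x = B2 at *
  push_cast at p0 p1 p2 p3 p4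
  rw [e36] at p0 p1 p2 p3 p4
  have q : 0 ≤ 201 / 100000 - (b1 + b2) := by linarith
  have m0 := mul_nonneg (mul_nonneg q h1) p0
  have m1 := mul_nonneg (mul_nonneg q h2) p1
  have m2 := mul_nonneg (mul_nonneg h1 h1) p2
  have m3 := mul_nonneg (mul_nonneg h2 h2) p3
  have m4 := mul_nonneg (mul_nonneg h1 h2) p4
  have tot := add_nonneg (add_nonneg (add_nonneg m0 m1) (add_nonneg
    (div_nonneg m2 (by norm_num : (0 : ℝ) ≤ 100000)) (div_nonneg m3 (by norm_num : (0 : ℝ) ≤ 100000))))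
    (div_nonneg m4 (by norm_num : (0 : ℝ) ≤ 100000))
  refine nonneg_of_mul_nonneg_right (a := (201 / 100000 : ℝ)) ?_ (by norm_num)
  refine le_of_le_of_eq tot ?_
  rcases hsg with rfl | rfl <;> (push_cast; ring)

end CertM

open CertM in
theorem cert : CertStmt := by
  intro x hx0 hx b1 b2 h1 h2 h3
  constructor
  · have := key 1 (Or.inl rfl) x hx b1 b2 h1 h2 h3 (chkP_sound _ _ _ cp0 x hx0) (chkP_sound _ _ _ cp1 x hx0)
      (chkP_sound _ _ _ cp2 x hx0) (chkP_sound _ _ _ cp3 x hx0) (chkP_sound _ _ _ cp4 x hx0)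
    push_cast at this
    linarith
  · have := key (-1) (Or.inr rfl) x hx b1 b2 h1 h2 h3 (chkP_sound _ _ _ cm0 x hx0) (chkP_sound _ _ _ cm1 x hx0)
      (chkP_sound _ _ _ cm2 x hx0) (chkP_sound _ _ _ cm3 x hx0) (chkP_sound _ _ _ cm4 x hx0)
    push_cast at this
    linarith

end Pool.TRI.A
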