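import Pool.Agent.H29.TRI.Chk

/-!
# CERTB: positivity of the barrier and its slope at the side `X 0 = 0`
-/

namespace Pool.TRI.A

open PX Chk

namespace CertBM

def S2 : PX :=
  [(1, 2, 0, 0), (2, 1, 1, 0), (2, 1, 0, 1), (1, 0, 2, 0), (2, 0, 1, 1), (1, 0, 0, 2)]

def S7 : PX :=
  [(1, 7, 0, 0), (7, 6, 1, 0), (7, 6, 0, 1), (21, 5, 2, 0), (42, 5, 1, 1), (21, 5, 0, 2), (35, 4, 3, 0), (105,
    4, 2, 1), (105, 4, 1, 2), (35, 4, 0, 3), (35, 3, 4, 0), (140, 3, 3, 1), (210, 3, 2, 2), (140, 3, 1, 3), (35,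
    3, 0, 4), (21, 2, 5, 0), (105, 2, 4, 1), (210, 2, 3, 2), (210, 2, 2, 3), (105, 2, 1, 4), (21, 2, 0, 5), (7, 1,
    6, 0), (42, 1, 5, 1), (105, 1, 4, 2), (140, 1, 3, 3), (105, 1, 2, 4), (42, 1, 1, 5), (7, 1, 0, 6), (1, 0, 7,
    0), (7, 0, 6, 1), (21, 0, 5, 2), (35, 0, 4, 3), (35, 0, 3, 4), (21, 0, 2, 5), (7, 0, 1, 6), (1, 0, 0, 7)]

def S9 : PX :=
  [(1, 9, 0, 0), (9, 8, 1, 0), (9, 8, 0, 1), (36, 7, 2, 0), (72, 7, 1, 1), (36, 7, 0, 2), (84, 6, 3, 0), (252,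
    6, 2, 1), (252, 6, 1, 2), (84, 6, 0, 3), (126, 5, 4, 0), (504, 5, 3, 1), (756, 5, 2, 2), (504, 5, 1, 3), (126,
    5, 0, 4), (126, 4, 5, 0), (630, 4, 4, 1), (1260, 4, 3, 2), (1260, 4, 2, 3), (630, 4, 1, 4), (126, 4, 0, 5),
    (84, 3, 6, 0), (504, 3, 5, 1), (1260, 3, 4, 2), (1680, 3, 3, 3), (1260, 3, 2, 4), (504, 3, 1, 5), (84, 3, 0,
    6), (36, 2, 7, 0), (252, 2, 6, 1), (756, 2, 5, 2), (1260, 2, 4, 3), (1260, 2, 3, 4), (756, 2, 2, 5), (252, 2,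
    1, 6), (36, 2, 0, 7), (9, 1, 8, 0), (72, 1, 7, 1), (252, 1, 6, 2), (504, 1, 5, 3), (630, 1, 4, 4), (504, 1, 3,
    5), (252, 1, 2, 6), (72, 1, 1, 7), (9, 1, 0, 8), (1, 0, 9, 0), (9, 0, 8, 1), (36, 0, 7, 2), (84, 0, 6, 3),
    (126, 0, 5, 4), (126, 0, 4, 5), (84, 0, 3, 6), (36, 0, 2, 7), (9, 0, 1, 8), (1, 0, 0, 9)]

theorem evx_S2 (x : Fin 3 → ℝ) : evx S2 x = (x 0 + x 1 + x 2) ^ 2 := by
  simp only [S2, evx, mon, List.map_cons, List.map_nil, List.sum_cons, List.sum_nil]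
  push_cast
  ring

theorem evx_S7 (x : Fin 3 → ℝ) : evx S7 x = (x 0 + x 1 + x 2) ^ 7 := by
  simp only [S7, evx, mon, List.map_cons, List.map_nil, List.sum_cons, List.sum_nil]
  push_cast
  ring

theorem evx_S9 (x : Fin 3 → ℝ) : evx S9 x = (x 0 + x 1 + x 2) ^ 9 := by
  simp only [S9, evx, mon, List.map_cons, List.map_nil, List.sum_cons, List.sum_nil]
  push_cast
  ring

def q : PX := [(3, 0, 2, 0), (-6, 0, 1, 1), (3, 0, 0, 2)]

theorem evx_q (x : Fin 3 → ℝ) : evx q x = 3 * (x 1 - x 2) ^ 2 := by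
  simp only [q, evx, mon, List.map_cons, List.map_nil, List.sum_cons, List.sum_nil]
  push_cast
  ring

def r : PX := [(1, 0, 1, 1)]

theorem evx_r (x : Fin 3 → ℝ) : evx r x = x 1 * x 2 := by
  simp only [r, evx, mon, List.map_cons, List.map_nil, List.sum_cons, List.sum_nil]
  push_cast
  ring

def P : PX :=
  scale 549191 (mul S9 S2) ++ (scale (-354762) (mul q S9) ++ (scale 685541 (mul (mul q q) S7) ++ scale (-9) (mul r bX)))

def tB : Tr :=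
  .S (.V (.W (.S (.V (.W (.S .L (.S .L .L)))) .L))) (.V (.W (.S (.V (.W (.S .L (.S .L .L)))) .L)))

def tP : Tr :=
  .S (.W (.S .L (.V (.W (.S (.S .L .L) .L))))) (.W (.S .L (.V (.W (.S (.S .L .L) .L)))))

theorem cB : chkP 9 tB bX = true := by decide +kernel

set_option maxRecDepth 20000 in
theorem cP : chkP 11 tP P = true := by decide +kernel

end CertBM

open CertBM in
theorem certB : CertBStmt := by
  intro x hx0 hx
  refine ⟨chkP_sound _ _ _ cB x hx0, ?_⟩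
  have h := chkP_sound _ _ _ cP x hx0
  simp only [P, evx_append, evx_scale, evx_mul, evx_S2, evx_S7, evx_S9, evx_q, evx_r, hx] at h
  push_cast at h
  unfold GB
  linarith

end Pool.TRI.A
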