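import Pool.Agent.H69.TRI.StmtsP

/-!
# A kernel checker for the nonnegativity of homogeneous polynomials in three variables on the positive octant
-/

namespace Pool.TRI.A

namespace Chk

/-- row `[c 0, ..., c m]`: value `∑ c j * y ^ j * z ^ (m - j)` -/
noncomputable def evr : List ℤ → ℝ → ℝ → ℝ
  | [], _, _ => 0
  | c :: l, y, z => c * z ^ l.length + y * evr l y z

/-- list of rows: value `∑ x ^ i * (row i)` -/
noncomputable def eva : List (List ℤ) → ℝ → ℝ → ℝ → ℝ
  | [], _, _, _ => 0
  | R :: A, x, y, z => evr R y z + x * eva A x y z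

/-- sum of two rows -/
def radd : List ℤ → List ℤ → List ℤ
  | a :: l, b :: m => (a + b) :: radd l m
  | _, _ => []

/-- substitution `y ↦ y + z` in a row -/
def sh : List ℤ → List ℤ
  | [] => []
  | c :: l => radd (c :: sh l) (sh l ++ [0])

theorem radd_length : ∀ (l m : List ℤ), l.length = m.length → (radd l m).length = l.length
  | [], _, _ => rfl
  | a :: l, [], h => by simp at h
  | a :: l, b :: m, h => by
    simp only [radd, List.length_cons]
    rw [radd_length l m (by simpa using h)]

theorem evr_radd : ∀ (l m : List ℤ) (y z : ℝ), l.length = m.length → evr (radd l m) y z = evr l y z + evr m y z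
  | [], [], y, z, _ => by simp [radd, evr]
  | [], b :: m, y, z, h => by simp at h
  | a :: l, [], y, z, h => by simp at h
  | a :: l, b :: m, y, z, h => by
    have h' : l.length = m.length := by simpa using h
    simp only [radd, evr, radd_length l m h', evr_radd l m y z h', ← h']
    push_cast; ring

theorem evr_append : ∀ (l : List ℤ) (c : ℤ) (y z : ℝ), evr (l ++ [c]) y z = z * evr l y z + c * y ^ l.length
  | [], c, y, z => by simp [evr]
  | a :: l, c, y, z => by
    simp only [List.cons_append, evr, evr_append l c y z, List.length_append, List.length_cons, List.length_nil]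
    ring

theorem sh_length : ∀ l : List ℤ, (sh l).length = l.length
  | [] => rfl
  | c :: l => by
    rw [sh, radd_length]
    · simp [sh_length l]
    · simp

theorem evr_sh : ∀ (l : List ℤ) (y z : ℝ), evr (sh l) y z = evr l (y + z) z
  | [], y, z => by simp [sh, evr]
  | c :: l, y, z => by
    rw [sh, evr_radd _ _ _ _ (by simp)]
    simp only [evr, evr_append, sh_length, evr_sh l y z]
    push_cast; ring

theorem evr_reverse : ∀ (l : List ℤ) (y z : ℝ), evr l.reverse y z = evr l z y
  | [], y, z => by simp [evr]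
  | c :: l, y, z => by
    rw [List.reverse_cons, evr_append, evr_reverse l y z, List.length_reverse]
    simp only [evr]; ring

theorem eva_map (f : List ℤ → List ℤ) (y z y' z' : ℝ) (hf : ∀ l, evr (f l) y z = evr l y' z') :
    ∀ (A : List (List ℤ)) (x : ℝ), eva (A.map f) x y z = eva A x y' z'
  | [], x => by simp [eva]
  | R :: A, x => by simp only [List.map_cons, eva, hf, eva_map f y z y' z' hf A x]

/-- rows of lengths `n, n - 1, ..., 1` -/
def Shp : ℕ → List (List ℤ) → Prop
  | 0, A => A = []
  | n + 1, A => ∃ R A', A = R :: A' ∧ R.length = n + 1 ∧ Shp n A'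

/-- exchange of `x` and `y` -/
def tr : List (List ℤ) → List (List ℤ)
  | [] => []
  | R :: A => List.zipWith List.cons R (tr A ++ [[]])

/-- rows of lengths `n, n - 1, ..., 0` -/
def Shq : ℕ → List (List ℤ) → Prop
  | 0, A => A = [[]]
  | n + 1, A => ∃ R A', A = R :: A' ∧ R.length = n + 1 ∧ Shq n A'

theorem Shq_of : ∀ (n : ℕ) (A : List (List ℤ)), Shp n A → Shq n (A ++ [[]])
  | 0, A, h => by
    have : A = [] := h
    subst this; rfl
  | n + 1, A, h => by
    obtain ⟨R, A', rfl, hR, hA⟩ := h
    exact ⟨R, A' ++ [[]], rfl, hR, Shq_of n A' hA⟩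

theorem zip_aux : ∀ (n : ℕ) (R : List ℤ) (B : List (List ℤ)), R.length = n + 1 → Shq n B →
    Shp (n + 1) (List.zipWith List.cons R B) ∧
    ∀ x y z : ℝ, eva (List.zipWith List.cons R B) x y z = evr R x z + y * eva B x y z
  | 0, R, B, hR, hB => by
    have : B = [[]] := hB
    subst this
    obtain ⟨c, rfl⟩ : ∃ c, R = [c] := List.length_eq_one_iff.mp (by simpa using hR)
    refine ⟨⟨[c], [], rfl, rfl, rfl⟩, ?_⟩
    intro x y z
    simp [eva, evr]
  | n + 1, R, B, hR, hB => by
    obtain ⟨b, B', rfl, hb, hB'⟩ := hB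
    cases R with
    | nil => simp at hR
    | cons c R =>
      have hR' : R.length = n + 1 := by simpa using hR
      obtain ⟨h1, h2⟩ := zip_aux n R B' hR' hB'
      refine ⟨⟨c :: b, _, rfl, by simp [hb], h1⟩, ?_⟩
      intro x y z
      simp only [List.zipWith_cons_cons, eva, evr, h2, hb, hR']
      ring

theorem eva_snoc : ∀ (A : List (List ℤ)) (x y z : ℝ), eva (A ++ [[]]) x y z = eva A x y z
  | [], x, y, z => by simp [eva, evr]
  | R :: A, x, y, z => by simp only [List.cons_append, eva, eva_snoc A x y z]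

theorem tr_aux : ∀ (n : ℕ) (A : List (List ℤ)), Shp n A →
    Shp n (tr A) ∧ ∀ x y z : ℝ, eva (tr A) x y z = eva A y x z
  | 0, A, h => by
    have : A = [] := h
    subst this
    exact ⟨rfl, fun x y z => by simp [tr, eva]⟩
  | n + 1, A, h => by
    obtain ⟨R, A', rfl, hR, hA⟩ := h
    obtain ⟨h1, h2⟩ := tr_aux n A' hA
    obtain ⟨h3, h4⟩ := zip_aux n R (tr A' ++ [[]]) hR (Shq_of n _ h1)
    refine ⟨h3, fun x y z => ?_⟩
    rw [tr, h4, eva_snoc, h2]
    rfl

theorem Shp_map (f : List ℤ → List ℤ) (hf : ∀ l, (f l).length = l.length) :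
    ∀ (n : ℕ) (A : List (List ℤ)), Shp n A → Shp n (A.map f)
  | 0, A, h => by
    have : A = [] := h
    subst this; rfl
  | n + 1, A, h => by
    obtain ⟨R, A', rfl, hR, hA⟩ := h
    exact ⟨f R, A'.map f, rfl, by rw [hf, hR], Shp_map f hf n A' hA⟩

/-- certificates: leaf, exchange of `y, z`, exchange of `x, y`, subdivision `z ≤ y` / `y ≤ z` -/
inductive Tr
  | L : Tr
  | V : Tr → Tr
  | W : Tr → Tr
  | S : Tr → Tr → Tr

/-- all coefficients are nonnegative -/
def nnr : List ℤ → Bool
  | [] => true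
  | c :: l => (match c with | .ofNat _ => true | .negSucc _ => false) && nnr l

def nna : List (List ℤ) → Bool
  | [] => true
  | R :: A => nnr R && nna A

theorem nnr_sound : ∀ (l : List ℤ) (y z : ℝ), nnr l = true → 0 ≤ y → 0 ≤ z → 0 ≤ evr l y z
  | [], y, z, _, _, _ => by simp [evr]
  | c :: l, y, z, h, hy, hz => by
    simp only [nnr, Bool.and_eq_true] at h
    have h1 := nnr_sound l y z h.2 hy hz
    have h2 : (0 : ℝ) ≤ (c : ℝ) := by
      cases c with
      | ofNat m => simp
      | negSucc m => simp at h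
    simp only [evr]
    positivity

theorem nna_sound : ∀ (A : List (List ℤ)) (x y z : ℝ), nna A = true → 0 ≤ x → 0 ≤ y → 0 ≤ z → 0 ≤ eva A x y z
  | [], x, y, z, _, _, _, _ => by simp [eva]
  | R :: A, x, y, z, h, hx, hy, hz => by
    simp only [nna, Bool.and_eq_true] at h
    have h1 := nnr_sound R y z h.1 hy hz
    have h2 := nna_sound A x y z h.2 hx hy hz
    simp only [eva]
    positivity

/-- the checker -/
def chk : Tr → List (List ℤ) → Bool
  | .L, A => nna A
  | .V t, A => chk t (A.map List.reverse)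
  | .W t, A => chk t (tr A)
  | .S s t, A => chk s (A.map sh) && chk t (A.map fun R => sh R.reverse)

theorem chk_sound : ∀ (t : Tr) (n : ℕ) (A : List (List ℤ)), Shp n A → chk t A = true →
    ∀ x y z : ℝ, 0 ≤ x → 0 ≤ y → 0 ≤ z → 0 ≤ eva A x y z
  | .L, n, A, _, h, x, y, z, hx, hy, hz => nna_sound A x y z h hx hy hz
  | .V t, n, A, hA, h, x, y, z, hx, hy, hz => by
    have := chk_sound t n _ (Shp_map List.reverse (by simp) n A hA) h x z y hx hz hy
    rwa [eva_map List.reverse z y y z (fun l => evr_reverse l z y)] at this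
  | .W t, n, A, hA, h, x, y, z, hx, hy, hz => by
    obtain ⟨h1, h2⟩ := tr_aux n A hA
    have := chk_sound t n _ h1 h y x z hy hx hz
    rwa [h2] at this
  | .S s t, n, A, hA, h, x, y, z, hx, hy, hz => by
    simp only [chk, Bool.and_eq_true] at h
    rcases le_total z y with hyz | hyz
    · have := chk_sound s n _ (Shp_map sh sh_length n A hA) h.1 x (y - z) z hx (by linarith) hz
      rwa [eva_map sh (y - z) z y z (fun l => by rw [evr_sh]; ring_nf)] at this
    · have := chk_sound t n _ (Shp_map (fun R => sh R.reverse) (by simp [sh_length]) n A hA) h.2 x (z - y) y hx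
        (by linarith) hy
      rwa [eva_map (fun R => sh R.reverse) (z - y) y y z
        (fun l => by rw [evr_sh, evr_reverse]; ring_nf)] at this

/-! ### from lists of monomials to arrays -/

/-- add `c` at position `j` -/
def insr (c : ℤ) : ℕ → List ℤ → List ℤ
  | _, [] => []
  | 0, a :: l => (a + c) :: l
  | j + 1, a :: l => a :: insr c j l

/-- add `c` at position `j` of row `i` -/
def insa (c : ℤ) (j : ℕ) : ℕ → List (List ℤ) → List (List ℤ)
  | _, [] => []
  | 0, R :: A => insr c j R :: A
  | i + 1, R :: A => R :: insa c j i A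

theorem insr_length (c : ℤ) : ∀ (j : ℕ) (l : List ℤ), (insr c j l).length = l.length
  | _, [] => by simp [insr]
  | 0, a :: l => by simp [insr]
  | j + 1, a :: l => by simp [insr, insr_length c j l]

theorem evr_insr (c : ℤ) (y z : ℝ) : ∀ (j : ℕ) (l : List ℤ), j < l.length →
    evr (insr c j l) y z = evr l y z + c * (y ^ j * z ^ (l.length - 1 - j))
  | _, [], h => by simp at h
  | 0, a :: l, _ => by simp [insr, evr]; ring
  | j + 1, a :: l, h => by
    have h' : j < l.length := by simpa using h
    simp only [insr, evr, insr_length, evr_insr c y z j l h', List.length_cons]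
    have : l.length + 1 - 1 - (j + 1) = l.length - 1 - j := by omega
    rw [this]
    ring

theorem insa_aux (c : ℤ) (j : ℕ) : ∀ (i n : ℕ) (A : List (List ℤ)), Shp n A → i + j < n →
    Shp n (insa c j i A) ∧
    ∀ x y z : ℝ, eva (insa c j i A) x y z = eva A x y z + c * (x ^ i * y ^ j * z ^ (n - 1 - i - j))
  | _, 0, A, _, h => by omega
  | 0, n + 1, A, hA, h => by
    obtain ⟨R, A', rfl, hR, hA'⟩ := hA
    refine ⟨⟨_, _, rfl, by rw [insr_length, hR], hA'⟩, ?_⟩
    intro x y z
    simp only [insa, eva, evr_insr c y z j R (by omega), hR]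
    have : n + 1 - 1 - 0 - j = n + 1 - 1 - j := by omega
    rw [this]
    ring
  | i + 1, n + 1, A, hA, h => by
    obtain ⟨R, A', rfl, hR, hA'⟩ := hA
    obtain ⟨h1, h2⟩ := insa_aux c j i n A' hA' (by omega)
    refine ⟨⟨_, _, rfl, hR, h1⟩, ?_⟩
    intro x y z
    simp only [insa, eva, h2]
    have : n + 1 - 1 - (i + 1) - j = n - 1 - i - j := by omega
    rw [this]
    ring

/-- zero array -/
def zer : ℕ → List (List ℤ)
  | 0 => []
  | n + 1 => List.replicate (n + 1) 0 :: zer n

theorem evr_replicate (y z : ℝ) : ∀ m : ℕ, evr (List.replicate m 0) y z = 0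
  | 0 => by simp [evr]
  | m + 1 => by simp [List.replicate_succ, evr, evr_replicate y z m]

theorem zer_aux : ∀ n : ℕ, Shp n (zer n) ∧ ∀ x y z : ℝ, eva (zer n) x y z = 0
  | 0 => ⟨rfl, fun x y z => by simp [zer, eva]⟩
  | n + 1 => by
    obtain ⟨h1, h2⟩ := zer_aux n
    refine ⟨⟨_, _, rfl, by simp, h1⟩, fun x y z => ?_⟩
    simp [zer, eva, h2, evr_replicate]

/-- is zero -/
def isZ : ℤ → Bool
  | .ofNat 0 => true
  | _ => false

theorem isZ_eq : ∀ c : ℤ, isZ c = true → c = 0
  | .ofNat 0, _ => rfl
  | .ofNat (n + 1), h => by cases h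
  | .negSucc n, h => by cases h

/-- insert all monomials -/
def dense : PX → List (List ℤ) → List (List ℤ)
  | [], A => A
  | t :: l, A => bif isZ t.1 then dense l A else dense l (insa t.1 t.2.2.1 t.2.1 A)

/-- all exponents have sum `n` -/
def hom (n : ℕ) : PX → Bool
  | [] => true
  | t :: l => (isZ t.1 || (t.2.1 + t.2.2.1 + t.2.2.2).beq n) && hom n l

theorem dense_aux (n : ℕ) : ∀ (l : PX) (A : List (List ℤ)), Shp (n + 1) A → hom n l = true →
    Shp (n + 1) (dense l A) ∧ ∀ x : Fin 3 → ℝ, eva (dense l A) (x 0) (x 1) (x 2) = eva A (x 0) (x 1) (x 2) + evx l x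
  | [], A, hA, _ => ⟨hA, fun x => by simp [dense]⟩
  | t :: l, A, hA, h => by
    simp only [hom, Bool.and_eq_true, Bool.or_eq_true] at h
    by_cases hz : isZ t.1 = true
    · have h0 := isZ_eq _ hz
      obtain ⟨h3, h4⟩ := dense_aux n l _ hA h.2
      simp only [dense, hz, cond_true]
      refine ⟨h3, fun x => ?_⟩
      rw [h4, evx_cons, mon, h0]
      push_cast
      ring
    · have hn : t.2.1 + t.2.2.1 + t.2.2.2 = n := Nat.eq_of_beq_eq_true (h.1.resolve_left hz)
      obtain ⟨h1, h2⟩ := insa_aux t.1 t.2.2.1 t.2.1 (n + 1) A hA (by omega)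
      obtain ⟨h3, h4⟩ := dense_aux n l _ h1 h.2
      have hz' : isZ t.1 = false := by simpa using hz
      simp only [dense, hz', cond_false]
      refine ⟨h3, fun x => ?_⟩
      rw [h4, h2, evx_cons, mon]
      have : n + 1 - 1 - t.2.1 - t.2.2.1 = t.2.2.2 := by omega
      rw [this]
      ring

/-- the whole check -/
def chkP (n : ℕ) (t : Tr) (l : PX) : Bool := hom n l && chk t (dense l (zer (n + 1)))

theorem chkP_sound (n : ℕ) (t : Tr) (l : PX) (h : chkP n t l = true) (x : Fin 3 → ℝ) (hx : ∀ k, 0 ≤ x k) :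
    0 ≤ evx l x := by
  simp only [chkP, Bool.and_eq_true] at h
  obtain ⟨h1, h2⟩ := dense_aux n l (zer (n + 1)) (zer_aux (n + 1)).1 h.1
  have h3 := chk_sound t (n + 1) _ h1 h.2 (x 0) (x 1) (x 2) (hx 0) (hx 1) (hx 2)
  rw [h2, (zer_aux (n + 1)).2, zero_add] at h3
  exact h3

end Chk

end Pool.TRI.A
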