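import Pool.Agent.H29.TRI.Chk

/-!
# N4: the numerical inequality near the side `X 0 = 0`
-/

open scoped Real ComplexConjugate

namespace Pool.TRI.A

open Chk

namespace N4M

theorem re1 (ζ : ℂ) (q : ℝ) (hq : q = ‖ζ‖ ^ 2) : (ζ * fwb ζ).re * (8 * 10 ^ 8) =
    ((195138416) * q ^ 1 + (853209) * q ^ 2 + (-833568) * q ^ 3 + (360165) * q ^ 4 + (-500724) * q ^ 5 + (285243) *
    q ^ 6)
    + ((-399993486) + (65607265) * q ^ 1 + (-3386208) * q ^ 2 + (3887727) * q ^ 3 + (-1392816) * q ^ 4) * (ζ ^ 3).re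
    + ((-272832) + (1681920) * q ^ 1 + (-834222) * q ^ 2 + (291052) * q ^ 3) * (ζ ^ 6).re
    + ((-37915) + (84370) * q ^ 1) * (ζ ^ 9).re
    + ((697)) * (ζ ^ 12).re := by
  have hz : ((q : ℝ) : ℂ) = ζ * conj ζ := by
    rw [Complex.mul_conj, Complex.normSq_eq_norm_sq, hq]
  have key : ζ * fwb ζ * (8 * 10 ^ 8) =
      ((((195138416) * q ^ 1 + (853209) * q ^ 2 + (-833568) * q ^ 3 + (360165) * q ^ 4 + (-500724) * q ^ 5 + (285243) *
    q ^ 6 : ℝ)) : ℂ)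
      + (((-399993486) + (432230) * q ^ 1 + (-1279002) * q ^ 2 + (1366936) * q ^ 3 + (-487080) * q ^ 4 : ℝ) : ℂ) * ζ ^ 3 + (((65175035) * q ^ 1 + (-2107206) * q ^ 2 + (2520791) * q ^ 3 + (-905736) * q ^ 4 : ℝ) : ℂ) * conj (ζ ^ 3)
      + (((-272832) + (482616) * q ^ 1 + (-310431) * q ^ 2 + (82272) * q ^ 3 : ℝ) : ℂ) * ζ ^ 6 + (((1199304) * q ^ 1 + (-523791) * q ^ 2 + (208780) * q ^ 3 : ℝ) : ℂ) * conj (ζ ^ 6)
      + (((-37915) + (22418) * q ^ 1 : ℝ) : ℂ) * ζ ^ 9 + (((61952) * q ^ 1 : ℝ) : ℂ) * conj (ζ ^ 9)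
      + (((697) : ℝ) : ℂ) * ζ ^ 12 := by
    simp only [fwb, fl, List.map_cons, List.map_nil, List.sum_cons, List.sum_nil, map_pow]
    push_cast
    rw [hz]
    generalize conj ζ = η
    norm_num
    ring
  have h2 := congrArg Complex.re key
  have h3 : (ζ * fwb ζ * (8 * 10 ^ 8)).re = (ζ * fwb ζ).re * (8 * 10 ^ 8) := by
    have : ((8 : ℂ) * 10 ^ 8) = (((8 * 10 ^ 8 : ℝ)) : ℂ) := by push_cast; ring
    rw [this, Complex.re_mul_ofReal]
  rw [h3] at h2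
  rw [h2]
  simp only [Complex.add_re, Complex.re_ofReal_mul, Complex.conj_re, Complex.ofReal_re]
  ring

theorem res (ζ : ℂ) (q : ℝ) (hq : q = ‖ζ‖ ^ 2) :
    (ζ ^ 3).re = ζ.re ^ 3 - 3 * ζ.re * ζ.im ^ 2 ∧ q = ζ.re ^ 2 + ζ.im ^ 2 ∧
    (ζ ^ 6).re = 2 * (ζ ^ 3).re ^ 2 - q ^ 3 ∧
    (ζ ^ 9).re = 4 * (ζ ^ 3).re ^ 3 - 3 * (ζ ^ 3).re * q ^ 3 ∧
    (ζ ^ 12).re = 8 * (ζ ^ 3).re ^ 4 - 8 * (ζ ^ 3).re ^ 2 * q ^ 3 + q ^ 6 := by
  have h0 : q = Complex.normSq ζ := by rw [hq, Complex.normSq_eq_norm_sq]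
  have h1 : q ^ 3 = (ζ ^ 3).re ^ 2 + (ζ ^ 3).im ^ 2 := by
    rw [h0, ← map_pow, Complex.normSq_apply]; ring
  have e6 : q ^ 6 = (q ^ 3) ^ 2 := by ring
  refine ⟨?_, ?_, ?_, ?_, ?_⟩
  · simp [pow_succ, Complex.mul_re, Complex.mul_im]; ring
  · rw [h0, Complex.normSq_apply]; ring
  · rw [show ζ ^ 6 = ζ ^ 3 * ζ ^ 3 by ring, Complex.mul_re, h1]; ring
  · rw [show ζ ^ 9 = ζ ^ 3 * ζ ^ 3 * ζ ^ 3 by ring, Complex.mul_re, Complex.mul_re, Complex.mul_im, h1]; ring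
  · rw [show ζ ^ 12 = (ζ ^ 3 * ζ ^ 3) * (ζ ^ 3 * ζ ^ 3) by ring, Complex.mul_re, Complex.mul_re, Complex.mul_im, e6, h1]
    ring

def G0 (v : ℝ) : ℝ := (8228429) + (-1424810) * v ^ 1 + (27941250) * v ^ 2 + (-33575536) * v ^ 3 + (23758167) * v ^ 4 + (-4494792) * v ^ 5 + (64824) * v ^ 6
def G1 (v : ℝ) : ℝ := (-671128997) + (1115542554) * v ^ 1 + (-223521669) * v ^ 2 + (163679592) * v ^ 3 + (-104997498) * v ^ 4 + (13260366) * v ^ 5
def rest : List (ℤ × ℕ × ℕ) :=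
  [(920513206, 0, 0), (-1637623608, 0, 1), (479715972, 0, 2), (-542375640, 0, 3), (142780440, 0, 4), (-9099072,
    0, 5), (-843883546, 1, 0), (1042773494, 1, 1), (-1291753164, 1, 2), (888991044, 1, 3), (-77294730, 1, 4),
    (350176238, 2, 0), (-743927592, 2, 1), (2262612870, 2, 2), (-771619632, 2, 3), (17075376, 2, 4), (271612859,
    3, 0), (964666272, 3, 1), (-2033513640, 3, 2), (338365356, 3, 3), (-587636348, 4, 0), (-871506192, 4, 1),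
    (1023160656, 4, 2), (-60234720, 4, 3), (582314196, 5, 0), (455566524, 5, 1), (-278287668, 5, 2), (-384244677,
    6, 0), (-142575240, 6, 1), (32792184, 6, 2), (169119778, 7, 0), (25484006, 7, 1), (-47198440, 8, 0),
    (-2113824, 8, 1), (7515806, 9, 0), (-517280, 10, 0)]

noncomputable def ev2 (l : List (ℤ × ℕ × ℕ)) (a b : ℝ) : ℝ := (l.map fun t => (t.1 : ℝ) * a ^ t.2.1 * b ^ t.2.2).sum

theorem ev2_bd (l : List (ℤ × ℕ × ℕ)) (a b A B : ℝ) (ha : 0 ≤ a) (hb : 0 ≤ b) (hA : a ≤ A) (hB : b ≤ B) :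
    - (l.map fun t => |(t.1 : ℝ)| * A ^ t.2.1 * B ^ t.2.2).sum ≤ ev2 l a b := by
  induction l with
  | nil => simp [ev2]
  | cons t l ih =>
    simp only [ev2, List.map_cons, List.sum_cons] at ih ⊢
    have h1 : a ^ t.2.1 ≤ A ^ t.2.1 := pow_le_pow_left₀ ha hA _
    have h2 : b ^ t.2.2 ≤ B ^ t.2.2 := pow_le_pow_left₀ hb hB _
    have hA0 : 0 ≤ A := ha.trans hA
    have h3 : |(t.1 : ℝ)| * a ^ t.2.1 * b ^ t.2.2 ≤ |(t.1 : ℝ)| * A ^ t.2.1 * B ^ t.2.2 := by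
      have : 0 ≤ |(t.1 : ℝ)| * A ^ t.2.1 := by positivity
      gcongr
    have h4 : -(|(t.1 : ℝ)| * a ^ t.2.1 * b ^ t.2.2) ≤ (t.1 : ℝ) * a ^ t.2.1 * b ^ t.2.2 := by
      have : 0 ≤ a ^ t.2.1 * b ^ t.2.2 := by positivity
      nlinarith [neg_abs_le (t.1 : ℝ)]
    linarith

theorem rhs_eq (ζ : ℂ) (e v : ℝ) (he : e = 1 + ζ.re) (hv : v = ζ.im ^ 2) :
    (hh ζ + ‖ζ‖ ^ 2 / 2 - (ζ * fwb ζ).re) * (8 * 10 ^ 8) = G0 v + e * G1 v + e ^ 2 * ev2 rest e v := by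
  obtain ⟨h1, h2, h3, h4, h5⟩ := res ζ (‖ζ‖ ^ 2) rfl
  have hr := re1 ζ (‖ζ‖ ^ 2) rfl
  have ha : ζ.re = e - 1 := by linarith
  rw [sub_mul, hr]
  unfold hh
  rw [h5, h4, h3, h1, h2, ha, ← hv]
  simp only [G0, G1, ev2, rest, List.map_cons, List.map_nil, List.sum_cons, List.sum_nil]
  push_cast
  ring

theorem D2_eq (r : ℝ) : D2 r = (97569208 * r ^ 2 + 1199980458 * r ^ 3 + 440831328 * r ^ 4 + 132511220 * r ^ 5 + 7218360 * r ^ 6 + 27126120 * r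
    ^ 7 + 12971112 * r ^ 8 + 26631432 * r ^ 9 + 11453940 * r ^ 10 + 12511070 * r ^ 11 + 5470872 * r ^ 12) / (8 * 10 ^ 8) := by
  simp only [D2, fl, List.map_cons, List.map_nil, List.sum_cons, List.sum_nil, Nat.choose_two_right]
  norm_num
  ring

theorem fwb_bd (ζ : ℂ) (h : ‖ζ‖ ≤ 2) : |(ζ * fwb ζ).re| ≤ 1986 / 100 := by
  have key : ∀ l : List (ℤ × ℕ × ℕ), ‖(l.map fun t => (t.1 : ℂ) * t.2.2 * ζ ^ t.2.1 * (conj ζ) ^ (t.2.2 - 1)).sum‖ ≤
      (l.map fun t => |(t.1 : ℝ)| * t.2.2 * 2 ^ t.2.1 * 2 ^ (t.2.2 - 1)).sum := by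
    intro l
    induction l with
    | nil => simp
    | cons t l ih =>
      simp only [List.map_cons, List.sum_cons]
      refine (norm_add_le _ _).trans (add_le_add ?_ ih)
      rw [norm_mul, norm_mul, norm_mul, norm_pow, norm_pow, Complex.norm_intCast, Complex.norm_natCast,
        Complex.norm_conj]
      gcongr
  have h1 := key fl
  have h2 : ‖fwb ζ‖ ≤ 1986 / 200 := by
    have h3 : ‖((8 : ℂ) * 10 ^ 8)‖ = 8 * 10 ^ 8 := by
      rw [norm_mul, norm_pow]; simp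
    rw [fwb, norm_div, h3, div_le_iff₀ (by norm_num)]
    refine h1.trans ?_
    simp only [fl, List.map_cons, List.map_nil, List.sum_cons, List.sum_nil]
    norm_num [abs_of_pos, abs_of_neg]
  have h4 : |(ζ * fwb ζ).re| ≤ ‖ζ‖ * ‖fwb ζ‖ := by
    rw [← norm_mul]; exact Complex.abs_re_le_norm _
  nlinarith [norm_nonneg ζ, norm_nonneg (fwb ζ)]

def lF : PX :=
  [(117798632619123268, 6, 0, 0), (43947800495305898973, 5, 1, 0), (-3960812900550291429, 4, 2, 0),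
    (-34480422325979812474, 3, 3, 0), (16872399358927405926, 2, 4, 0), (-639882359929957404, 1, 5, 0),
    (87963906142669150, 0, 6, 0)]

def lM : PX :=
  [(1496624228, 5, 0, 0), (7481681230, 4, 1, 0), (11720739923, 3, 2, 0), (2615525657, 2, 3, 0), (118982677, 1,
    4, 0), (16871003, 0, 5, 0)]

theorem cF : chkP 6 (.V (.W (.S .L (.S .L .L)))) lF = true := by decide +kernel

theorem cM : chkP 5 (.L) lM = true := by decide +kernel

theorem M_pos (v : ℝ) (h0 : 0 ≤ v) (h3 : v ≤ 3) :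
    0 ≤ (86 / 100 - 138 / 100 * v + 60 / 100 * v ^ 2) + G1 v / (8 * 10 ^ 8) := by
  have h := chkP_sound _ _ _ cM ![v / 3, 1 - v / 3, 0] (by
    intro k; fin_cases k <;> simp <;> linarith)
  simp only [lM, evx, mon, List.map_cons, List.map_nil, List.sum_cons, List.sum_nil, Matrix.cons_val_zero,
    Matrix.cons_val_one, Matrix.cons_val] at h
  unfold G1
  push_cast at h
  linear_combination (1 / 800000000) * h

/-- the final polynomial -/
theorem F_pos (v : ℝ) (h0 : 0 ≤ v) (h3 : v ≤ 3) :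
    0 ≤ (159934374804853 / 160000000000000000) + (-24326370766374423 / 5500000000000000000) * v ^ 1 +
    (594201937519923061 / 22000000000000000000) * v ^ 2 + (-2039409657108192467 / 44000000000000000000) * v ^ 3 +
    (2573248548424607319 / 88000000000000000000) * v ^ 4 + (-101060603583332001 / 17600000000000000000) * v ^ 5 +
    (26748055790889 / 400000000000000000) * v ^ 6 := by
  have h := chkP_sound _ _ _ cF ![v / 3, 1 - v / 3, 0] (by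
    intro k; fin_cases k <;> simp <;> linarith)
  simp only [lF, evx, mon, List.map_cons, List.map_nil, List.sum_cons, List.sum_nil, Matrix.cons_val_zero,
    Matrix.cons_val_one, Matrix.cons_val] at h
  push_cast at h
  linear_combination (1 / 88000000000000000000) * h

end N4M

open N4M in
theorem n4 (hg : Geo1Stmt) : N4Stmt := by
  obtain ⟨-, -, -, -, -, -, -, -, -, hb2, hb3, -⟩ := hg
  intro ζ hζ s hs0 hsA hes
  have hr2 : ‖ζ‖ ≤ 2 := hb2 ζ hζ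
  have hv3 : ζ.im ^ 2 ≤ 3 := hb3 ζ hζ
  obtain ⟨e, he⟩ : ∃ e, e = 1 + ζ.re := ⟨_, rfl⟩
  obtain ⟨v, hv⟩ : ∃ v, v = ζ.im ^ 2 := ⟨_, rfl⟩
  have he0 : 0 ≤ e := by
    have := hζ 0
    rw [he]; simpa [X] using this
  have hv0 : 0 ≤ v := by rw [hv]; positivity
  obtain ⟨r, hr⟩ : ∃ r, r = ‖ζ‖ := ⟨_, rfl⟩
  have hr0 : 0 ≤ r := by rw [hr]; positivity
  rw [← hr, ← he] at hes
  rw [← hv] at hv3
  rw [← hr] at hr2
  have hrhs := rhs_eq ζ e v he hv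
  have hfw := fwb_bd ζ (by rw [← hr]; exact hr2)
  have hrr : r ^ 2 = (1 - e) ^ 2 + v := by
    have h1 : r ^ 2 = Complex.normSq ζ := by rw [hr, Complex.normSq_eq_norm_sq]
    rw [h1, Complex.normSq_apply, hv, he]; ring
  rw [← hr] at hrhs ⊢
  rw [← hv]
  unfold sA at hsA
  have hes' : e ≤ 201 / 100000 := by nlinarith
  have hru : r ^ 2 ≤ 1 + v := by nlinarith
  have hR : r ≤ (v + 221 / 100) / (22 / 10) := by nlinarith [sq_nonneg (r - 11 / 10)]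
  obtain ⟨R, hRd⟩ : ∃ R, R = (v + 221 / 100) / (22 / 10) := ⟨_, rfl⟩
  rw [← hRd] at hR
  have hR0 : 0 ≤ R := hr0.trans hR
  obtain ⟨u, hu⟩ : ∃ u, u = 1 + v := ⟨_, rfl⟩
  rw [← hu] at hru
  have hu0 : 0 ≤ u := by linarith
  -- cubic term
  have t1 : s * r ^ 3 / 6 ≤ s * (R * u) / 6 := by
    have : r ^ 3 ≤ R * u := by
      have : r ^ 3 = r * r ^ 2 := by ring
      rw [this]; gcongr
    gcongr
  -- D2
  obtain ⟨D, hD⟩ : ∃ D : ℝ, D = (97569208 * u ^ 1 + 440831328 * u ^ 2 + 7218360 * u ^ 3 + 12971112 * u ^ 4 + 11453940 * u ^ 5 + 5470872 * u ^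
    6 + R * (1199980458 * u ^ 1 + 132511220 * u ^ 2 + 27126120 * u ^ 3 + 26631432 * u ^ 4 + 12511070 * u ^ 5)) / (8 * 10 ^ 8) := ⟨_, rfl⟩
  have t2 : D2 r ≤ D := by
    have e1 : D2 r = (97569208 * (r ^ 2) ^ 1 + 440831328 * (r ^ 2) ^ 2 + 7218360 * (r ^ 2) ^ 3 + 12971112 * (r ^ 2) ^ 4 + 11453940
    * (r ^ 2) ^ 5 + 5470872 * (r ^ 2) ^ 6 + r * (1199980458 * (r ^ 2) ^ 1 + 132511220 * (r ^ 2) ^ 2 + 27126120 *
    (r ^ 2) ^ 3 + 26631432 * (r ^ 2) ^ 4 + 12511070 * (r ^ 2) ^ 5)) / (8 * 10 ^ 8) := by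
      rw [D2_eq]; ring
    rw [e1, hD]
    gcongr
  have hD0 : 0 ≤ D := by rw [hD]; positivity
  -- barrier terms
  have hGB : 0 ≤ GB v := by
    unfold GB
    have : 0 ≤ 549191 + (-354762) * v + 685541 * v ^ 2 := by nlinarith [sq_nonneg (v - 1 / 4)]
    positivity
  have hGD : 0 ≤ GD v := by unfold GD; positivity
  have t4 : r * (GB v + s * r * GD v) ≤ R * GB v + s * u * GD v := by
    have e1 : r * (GB v + s * r * GD v) = r * GB v + s * r ^ 2 * GD v := by ring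
    rw [e1]
    gcongr
  -- lower bound of the right side
  obtain ⟨M, hM⟩ : ∃ M : ℝ, M = 86 / 100 - 138 / 100 * v + 60 / 100 * v ^ 2 := ⟨_, rfl⟩
  have hM0 : 0 ≤ M := by rw [hM]; nlinarith [sq_nonneg (v - 115 / 100)]
  have hMG := M_pos v hv0 hv3
  rw [← hM] at hMG
  have hrest : -(4834 / 100 * (8 * 10 ^ 8)) ≤ ev2 rest e v := by
    refine le_trans ?_ (ev2_bd rest e v (201 / 100000) 3 he0 hv0 hes' hv3)
    simp only [rest, List.map_cons, List.map_nil, List.sum_cons, List.sum_nil]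
    norm_num [abs_of_pos, abs_of_neg]
  have heR : e ≤ s * R := hes.trans (by gcongr)
  have t5 : G0 v / (8 * 10 ^ 8) - s * R * M - 4834 / 100 * (4 * s ^ 2) ≤
      hh ζ + r ^ 2 / 2 - (ζ * fwb ζ).re := by
    have e1 : hh ζ + r ^ 2 / 2 - (ζ * fwb ζ).re =
        G0 v / (8 * 10 ^ 8) + e * (G1 v / (8 * 10 ^ 8)) + e ^ 2 * (ev2 rest e v / (8 * 10 ^ 8)) := by
      linear_combination (1 / (8 * 10 ^ 8)) * hrhs
    have e2 : -(s * R * M) ≤ e * (G1 v / (8 * 10 ^ 8)) := by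
      have : e * M ≤ s * R * M := by gcongr
      nlinarith
    have e3 : -(4834 / 100 * (4 * s ^ 2)) ≤ e ^ 2 * (ev2 rest e v / (8 * 10 ^ 8)) := by
      have h1 : -(4834 / 100) ≤ ev2 rest e v / (8 * 10 ^ 8) := by
        rw [le_div_iff₀ (by norm_num)]; linarith
      have h2 : e ^ 2 ≤ 4 * s ^ 2 := by
        have : e ^ 2 ≤ (s * r) ^ 2 := pow_le_pow_left₀ he0 hes 2
        nlinarith [mul_nonneg hs0 hr0, sq_nonneg s]
      nlinarith [sq_nonneg e]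
    rw [e1]; linarith
  have t3 : s ^ 2 * |(ζ * fwb ζ).re| ≤ s ^ 2 * (1986 / 100) := by gcongr
  -- final inequality
  have hF := F_pos v hv0 hv3
  have hbr : 0 ≤ (R * u) / 6 + 10102 / 10000 * D + u * GD v + R * M := by positivity
  have t6 : s * ((R * u) / 6 + 10102 / 10000 * D + u * GD v + R * M) ≤
      1005 / 1000000 * ((R * u) / 6 + 10102 / 10000 * D + u * GD v + R * M) := by gcongr
  have t7 : s ^ 2 ≤ (1005 / 1000000) ^ 2 := pow_le_pow_left₀ hs0 hsA 2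
  have t8 : 10102 / 10000 * s * D2 r ≤ 10102 / 10000 * s * D := by gcongr
  have fin : 1005 / 1000000 * ((R * u) / 6 + 10102 / 10000 * D + u * GD v + R * M) + R * GB v
      + (1986 / 100 + 4834 / 100 * 4) * (1005 / 1000000) ^ 2 ≤ G0 v / (8 * 10 ^ 8) := by
    rw [hRd, hD, hM, hRd, hu]
    unfold GD GB G0
    linear_combination hF
  linarith

end Pool.TRI.A
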